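import Pool.Agent.Helper62.WB.Defs

/-!
# Project WB (MP_08df5f_al): basic facts on tree actions, boundary and rigid stabilisers
-/

set_option autoImplicit false

namespace Pool.Agent.Helper62.WB

variable {T : RTree} {G : Type} [Group G]

/-- every vertex has a boundary point below it -/
theorem exists_bd (T : RTree) (n : ℕ) (v : T.L n) : ∃ x : T.Bd, x.1 n = v := by
  classical
  -- the ancestors of `v`
  have down : ∀ n (v : T.L n), ∃ f : ∀ k, T.L k, f n = v ∧ ∀ k, k < n → T.par k (f (k + 1)) = f k := by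
    intro n
    induction n with
    | zero =>
      intro v
      obtain ⟨r, hr⟩ := T.root
      have hne : ∀ k, Nonempty (T.L k) := by
        intro k
        induction k with
        | zero => exact ⟨v⟩
        | succ k ih => exact ⟨(T.par_surj k ih.some).choose⟩
      refine ⟨fun k => if h : k = 0 then h ▸ v else (hne k).some, by simp, fun k hk => by omega⟩
    | succ n ih =>
      intro v
      obtain ⟨f, hf, hf2⟩ := ih (T.par n v)
      refine ⟨fun k => if h : k = n + 1 then h ▸ v else f k, by simp, fun k hk => ?_⟩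
      by_cases hkn : k = n
      · subst hkn
        have h2 : k ≠ k + 1 := by omega
        simp [hf]
      · have h1 : k + 1 ≠ n + 1 := by omega
        have h2 : k ≠ n + 1 := by omega
        simp only [h1, h2, dif_neg, not_false_eq_true]
        exact hf2 k (by omega)
  obtain ⟨f, hf, hf2⟩ := down n v
  -- extend upwards
  let g : ∀ k, T.L (n + k) := fun k => Nat.rec (motive := fun k => T.L (n + k)) v
    (fun k w => (T.par_surj (n + k) w).choose) k
  have hg : ∀ k, T.par (n + k) (g (k + 1)) = g k := fun k => (T.par_surj (n + k) (g k)).choose_spec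
  have hg0 : g 0 = v := rfl
  have key : ∀ k (h : n ≤ k), n + (k - n) = k := fun k h => by omega
  refine ⟨⟨fun k => if h : n ≤ k then (key k h) ▸ g (k - n) else f k, fun k => ?_⟩, ?_⟩
  · by_cases h1 : n ≤ k
    · have h2 : n ≤ k + 1 := by omega
      simp only [h1, h2, dif_pos]
      obtain ⟨j, rfl⟩ := Nat.exists_eq_add_of_le h1
      have e1 : n + j - n = j := by omega
      have e2 : n + j + 1 - n = j + 1 := by omega
      have cast1 : ∀ (m : ℕ) (hm : m = j) (hh : n + m = n + j), (hh ▸ g m : T.L (n + j)) = g j := by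
        intro m hm hh
        subst hm
        rfl
      have cast2 : ∀ (m : ℕ) (hm : m = j + 1) (hh : n + m = n + j + 1),
          (hh ▸ g m : T.L (n + j + 1)) = g (j + 1) := by
        intro m hm hh
        subst hm
        rfl
      rw [cast1 _ e1, cast2 _ e2]
      exact hg j
    · by_cases h2 : n ≤ k + 1
      · have h3 : k + 1 = n := by omega
        subst h3
        have e1 : k + 1 - (k + 1) = 0 := by omega
        have cast1 : ∀ (m : ℕ) (hm : m = 0) (hh : k + 1 + m = k + 1),
            (hh ▸ g m : T.L (k + 1)) = g 0 := by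
          intro m hm hh
          subst hm
          rfl
        simp only [h1, dif_neg, not_false_eq_true, le_refl, dif_pos]
        rw [cast1 _ e1, hg0, ← hf]
        exact hf2 k (by omega)
      · simp only [h1, h2, dif_neg, not_false_eq_true]
        exact hf2 k (by omega)
  · have cast1 : ∀ (m : ℕ) (hm : m = 0) (hh : n + m = n), (hh ▸ g m : T.L n) = g 0 := by
      intro m hm hh
      subst hm
      rfl
    simp only [le_refl, dif_pos]
    rw [cast1 _ (by omega), hg0]

theorem anc_bd (x : T.Bd) (n k : ℕ) : T.anc n k (x.1 (n + k)) = x.1 n := by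
  induction k with
  | zero => rfl
  | succ k ih =>
    show T.anc n k (T.par (n + k) (x.1 (n + k + 1))) = _
    rw [x.2, ih]

theorem anc_act (a : TAct T G) (n k : ℕ) (g : G) (w : T.L (n + k)) :
    T.anc n k (a.act (n + k) g w) = a.act n g (T.anc n k w) := by
  induction k with
  | zero => rfl
  | succ k ih =>
    show T.anc n k (T.par (n + k) (a.act (n + k + 1) g w)) = a.act n g (T.anc n k (T.par (n + k) w))
    rw [a.par_act, ih]

theorem anc_surj (T : RTree) (n k : ℕ) : Function.Surjective (T.anc n k) := by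
  intro v
  obtain ⟨x, hx⟩ := exists_bd T n v
  exact ⟨x.1 (n + k), by rw [anc_bd, hx]⟩

/-- boundary points which agree at a level agree at the smaller levels -/
theorem bd_eq_of_le {x y : T.Bd} {n m : ℕ} (h : n ≤ m) (hxy : x.1 m = y.1 m) : x.1 n = y.1 n := by
  obtain ⟨k, rfl⟩ := Nat.exists_eq_add_of_le h
  rw [← anc_bd x n k, ← anc_bd y n k, hxy]

/-- boundary points which differ at a level differ at the larger levels -/
theorem bd_ne_of_le {x y : T.Bd} {n m : ℕ} (h : n ≤ m) (hxy : x.1 n ≠ y.1 n) : x.1 m ≠ y.1 m :=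
  fun h1 => hxy (bd_eq_of_le h h1)

theorem bd_ne {x y : T.Bd} (hxy : x ≠ y) : ∃ n, x.1 n ≠ y.1 n := by
  by_contra h
  push Not at h
  exact hxy (Subtype.ext (funext h))

/-- an element which fixes level `m` fixes the smaller levels -/
theorem act_eq_one_of_le (a : TAct T G) {n m : ℕ} (h : n ≤ m) {g : G} (hg : a.act m g = 1) :
    a.act n g = 1 := by
  obtain ⟨k, rfl⟩ := Nat.exists_eq_add_of_le h
  ext v
  obtain ⟨w, rfl⟩ := anc_surj T n k v
  rw [← anc_act, hg]
  rfl

/-- two elements which agree at level `m` agree at the smaller levels -/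
theorem act_eq_of_le (a : TAct T G) {n m : ℕ} (h : n ≤ m) {g g' : G}
    (hg : a.act m g = a.act m g') : a.act n g = a.act n g' := by
  have h1 : a.act m (g⁻¹ * g') = 1 := by rw [map_mul, map_inv, hg]; simp
  have h2 := act_eq_one_of_le a h h1
  rw [map_mul, map_inv] at h2
  exact (inv_mul_eq_one.mp h2)

/-- an element acts trivially on level `n` if it fixes all boundary points to level `n` -/
theorem act_eq_one_iff (a : TAct T G) (n : ℕ) (g : G) :
    a.act n g = 1 ↔ ∀ x : T.Bd, a.act n g (x.1 n) = x.1 n := by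
  constructor
  · intro h x
    rw [h]
    rfl
  · intro h
    ext v
    obtain ⟨x, rfl⟩ := exists_bd T n v
    rw [h]
    rfl

/-- the rigid stabiliser in terms of the boundary -/
theorem mem_Rist_iff (a : TAct T G) {n : ℕ} (v : T.L n) (g : G) :
    g ∈ a.Rist v ↔ ∀ x : T.Bd, x.1 n ≠ v → a.bd g x = x := by
  constructor
  · intro h x hx
    apply Subtype.ext
    funext m
    by_cases hm : n ≤ m
    · obtain ⟨k, rfl⟩ := Nat.exists_eq_add_of_le hm
      exact h k (x.1 (n + k)) (by rw [anc_bd]; exact hx)
    · -- smaller level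
      have h1 := h 0 (x.1 n) (by simpa [RTree.anc] using hx)
      have h2 : (a.bd g x).1 n = x.1 n := h1
      exact bd_eq_of_le (by omega) h2
  · intro h k w hw
    obtain ⟨x, rfl⟩ := exists_bd T (n + k) w
    rw [anc_bd] at hw
    have h1 := h x hw
    have h2 : (a.bd g x).1 (n + k) = x.1 (n + k) := by rw [h1]
    exact h2

/-- an element of a weakly branch group which fixes the boundary is trivial -/
theorem eq_one_of_bd {a : TAct T G} (ha : a.WeaklyBranch) {g : G} (h : ∀ x, a.bd g x = x) :
    g = 1 := by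
  refine ha.faithful g fun n => (act_eq_one_iff a n g).2 fun x => ?_
  have h1 : (a.bd g x).1 n = x.1 n := by rw [h]
  exact h1

theorem bd_injective {a : TAct T G} (ha : a.WeaklyBranch) : Function.Injective a.bd := by
  rw [injective_iff_map_eq_one]
  intro g hg
  refine eq_one_of_bd ha fun x => ?_
  rw [hg]
  rfl

theorem Rist_one (a : TAct T G) {n : ℕ} (v : T.L n) : (1 : G) ∈ a.Rist v := by
  rw [mem_Rist_iff]
  intro x _
  simp

theorem Rist_mul {a : TAct T G} {n : ℕ} {v : T.L n} {g h : G} (hg : g ∈ a.Rist v)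
    (hh : h ∈ a.Rist v) : g * h ∈ a.Rist v := by
  rw [mem_Rist_iff] at *
  intro x hx
  rw [map_mul, Equiv.Perm.mul_apply, hh x hx, hg x hx]

theorem Rist_inv {a : TAct T G} {n : ℕ} {v : T.L n} {g : G} (hg : g ∈ a.Rist v) :
    g⁻¹ ∈ a.Rist v := by
  rw [mem_Rist_iff] at *
  intro x hx
  rw [map_inv, Equiv.Perm.inv_eq_iff_eq, hg x hx]

/-- conjugation of rigid stabilisers -/
theorem Rist_conj {a : TAct T G} {n : ℕ} {v : T.L n} {g : G} (hg : g ∈ a.Rist v) (h : G) :
    h * g * h⁻¹ ∈ a.Rist (a.act n h v) := by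
  rw [mem_Rist_iff] at *
  intro x hx
  have h1 : (a.bd h⁻¹ x).1 n ≠ v := by
    intro h2
    apply hx
    rw [← h2]
    show x.1 n = a.act n h (a.act n h⁻¹ (x.1 n))
    simp
  rw [map_mul, map_mul, Equiv.Perm.mul_apply, Equiv.Perm.mul_apply, hg _ h1,
    ← Equiv.Perm.mul_apply, ← map_mul]
  simp

/-- the rigid stabiliser of `v` fixes the level of `v` -/
theorem Rist_act {a : TAct T G} {n : ℕ} {v : T.L n} {g : G} (hg : g ∈ a.Rist v) :
    a.act n g = 1 := by
  ext w
  by_cases hw : w = v
  · by_contra h
    have h1 : a.act n g w ≠ v := by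
      rw [← hw]
      exact h
    have h2 := hg 0 (a.act n g w) (by simpa [RTree.anc] using h1)
    have h3 : a.act n g (a.act n g w) = a.act n g w := h2
    exact h ((a.act n g).injective h3)
  · have h2 := hg 0 w (by simpa [RTree.anc] using hw)
    exact h2

/-- rigid stabilisers of descendants -/
theorem Rist_anc {a : TAct T G} {n k : ℕ} {w : T.L (n + k)} {g : G} (hg : g ∈ a.Rist w) :
    g ∈ a.Rist (T.anc n k w) := by
  rw [mem_Rist_iff] at *
  intro x hx
  refine hg x fun h => hx ?_
  rw [← anc_bd x n k, h]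

theorem Rist_par {a : TAct T G} {n : ℕ} {w : T.L (n + 1)} {g : G} (hg : g ∈ a.Rist w) :
    g ∈ a.Rist (T.par n w) := Rist_anc (n := n) (k := 1) hg

/-- if `x_m` is the vertex of level `m` of the boundary point `x` and `n ≤ m` -/
theorem Rist_le {a : TAct T G} {n m : ℕ} (h : n ≤ m) {x : T.Bd} {g : G}
    (hg : g ∈ a.Rist (x.1 m)) : g ∈ a.Rist (x.1 n) := by
  obtain ⟨k, rfl⟩ := Nat.exists_eq_add_of_le h
  have := Rist_anc (n := n) (k := k) hg
  rwa [anc_bd] at this

/-- elements with disjoint supports commute -/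
theorem commute_of_disjoint {a : TAct T G} (ha : a.WeaklyBranch) {S : Set T.Bd} {g h : G}
    (hg : ∀ x, x ∉ S → a.bd g x = x) (hh : ∀ x, x ∈ S → a.bd h x = x)
    (hgS : ∀ x, x ∈ S → a.bd g x ∈ S) (hhS : ∀ x, x ∉ S → a.bd h x ∉ S) : g * h = h * g := by
  apply bd_injective ha
  ext x
  rw [map_mul, map_mul, Equiv.Perm.mul_apply, Equiv.Perm.mul_apply]
  by_cases hx : x ∈ S
  · rw [hh x hx, hh _ (hgS x hx)]
  · rw [hg x hx, hg _ (hhS x hx)]

/-- the elements of the rigid stabilisers of different vertices of the same level commute -/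
theorem Rist_commute {a : TAct T G} (ha : a.WeaklyBranch) {n : ℕ} {v w : T.L n} (hvw : v ≠ w)
    {g h : G} (hg : g ∈ a.Rist v) (hh : h ∈ a.Rist w) : g * h = h * g := by
  have e1 := Rist_act hg
  have e2 := Rist_act hh
  rw [mem_Rist_iff] at hg hh
  refine commute_of_disjoint ha (S := {x | x.1 n = v}) (fun x hx => hg x hx)
    (fun x hx => hh x fun h => hvw ?_) (fun x hx => ?_) (fun x hx => ?_)
  · rw [← h]
    exact (show x.1 n = v from hx).symm
  · show (a.bd g x).1 n = v
    rw [TAct.bd_apply, e1]
    exact hx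
  · show ¬ (a.bd h x).1 n = v
    rw [TAct.bd_apply, e2]
    exact hx

end Pool.Agent.Helper62.WB
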