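import Pool.Agent.Helper62.WB.Defs

/-!
# Project WB (MP_08df5f_al): statements of the packets, with proofs

Main theorem: `StmtMain`.  All statements are elementary group theory.
-/

set_option autoImplicit false

namespace Pool.Agent.Helper62.WB

open scoped Classical

/-- PACKET FO (an invariant mean gives Foelner sets).
Proof.  Suppose Foelner's condition fails for `S`, `ε`.  Let `S' = S ∪ {1}`.  For every finite
nonempty `F`: `#(S' F) ≥ (1 + ε) #F` (`S' F` contains `F` and the elements `s x ∉ F`, `x ∈ F`, for the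
`s` for which the condition fails; there are more than `ε #F` of them).  Iterating `j` times, with
`(1 + ε)^j ≥ 2`, and `K = S'^j` (a finite set): `#(K F) ≥ 2 #F` for all finite `F`.  Hall's theorem
(`Finset.all_card_le_biUnion_card_iff_exists_injective`, infinite index set `G × Bool`,
`t (x, b) = K.image (· * x)`; a finite `s ⊆ G × Bool` has at most `2 #F` elements, `F` its projection)
gives an injective `f : G × Bool → G` with `f (x, b) * x⁻¹ ∈ K`.  For `b` fixed let
`A k = {x : f (x, b) = k * x}`, `k ∈ K`; these sets are disjoint and cover `G`; the sets `k A k` are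
disjoint (`f` injective) with union `f (G × {b})`.  By finite additivity (induction over `K`) and
invariance `μ (f (G × {b})) = μ G = 1`.  But `f (G × {true})`, `f (G × {false})` are disjoint, so
`μ G ≥ 2` (monotonicity from additivity and `μ ≥ 0`). -/
def StmtFO : Prop := ∀ (G : Type) [Group G], Amen G → Foel G

/-- PACKET SA (a stable group with Foelner sets: all quotients by finitely generated normal
subgroups are residually finite).
Proof.  Let `π : F_k → G` be the surjection of `Stable G`, `Q = G ⧸ N`, `ρ : F_k → Q` the composition,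
`n_1, .., n_r` generators of `N`, `u_i ∈ F_k` words with `π u_i = n_i`, and `g ∈ Q`, `g ≠ 1`, `g = ρ w`.
(1) Almost actions.  For every finite set `S ⊆ Q` and `η > 0` there is a finite nonempty
`X ⊆ Q × ℕ` such that for `s ∈ S` at most `η #X` of the `(x, i) ∈ X` have `(s x, i) ∉ X`: choose `s' ∈ G`
over the `s`, a Foelner set `F ⊆ G` for the `s'` and `η`, let `m(x)` be the number of elements of `F` over
`x ∈ Q`, and `X = {(x, i) : i < m(x)}`.  `#X = #F` and
`#{(x, i) ∈ X : (s x, i) ∉ X} = ∑_x max 0 (m(x) - m(s x))`, which is at most the number of `y ∈ F` with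
`s' y ∉ F` (for fixed `x` the `y ∈ F` over `x` with `s' y ∈ F` give different elements of `F` over `s x`).
(2) For a generator `s` of `F_k` let `p_s` be a permutation of `X` with `p_s (x, i) = (ρ s x, i)` whenever
`(ρ s x, i) ∈ X` (a partial injection of a finite set extends to a permutation); transfer to
`Fin n`, `n = #X`.  For a word `v` of length `≤ ℓ` (`S` symmetric, containing `ρ s^{±1}`) the
permutation `v(p)` maps `(x, i)` to `(ρ v x, i)` except for at most `ℓ η #X` points (induction on the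
word; for the inverse letters use that `p_s⁻¹ (x, i) = (ρ s⁻¹ x, i)` if `(ρ s⁻¹ x, i) ∈ X`).
(3) So for the relations `r ∈ R₀` (`ρ r = 1`) the permutation `r(p)` has at most `ℓ η #X < δ #X` moved
points; stability with `ε` gives `q` with `v(q) = 1` for all `v ∈ ker π`, and `v(q) = v(p)` at all but
`ℓ k ε #X` points or so, for `v` of length `≤ ℓ` (`dH` is a bi-invariant metric).  The words
`u_i` satisfy `ρ u_i = 1`, so `u_i(q)` fixes all but `ℓ (k ε + η) #X` points.  `q` gives a homomorphism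
`φ : G → Perm`, `φ (π v) = v(q)`.  Let `Y` be the set of the common fixed points of `φ N`: these are the
common fixed points of the `r` elements `u_i(q)`, so `#Y ≥ #X (1 - r ℓ (k ε + η))`, and `Y` is invariant under
`φ G` as `N` is normal.  `w(p)` moves all but `ℓ η #X` points (`ρ w x ≠ x`), so `w(q)` moves all but
`ℓ (k ε + η) #X` points.  For small `ε`, `η` there is a point of `Y` moved by `w(q)`.  So
`Q → Perm Y`, a finite group, does not kill `g`; take its kernel. -/
def StmtSA : Prop := ∀ (G : Type) [Group G], Foel G → Stable G → ∀ (N : Subgroup G) [N.Normal],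
  N.FG → RF (G ⧸ N)

/-- PACKET RB (noncommuting elements; obstruction).
Proof.  First part: let `r ∈ Rist v`, `r ≠ 1`.  By faithfulness `r` moves a vertex, and a descendant
`w` of level `n + k` of it (or of any level `≥ n`), so `r w ≠ w`; `w` is below `v`.  Let
`s ∈ Rist w`, `s ≠ 1`; then `s ∈ Rist v`.  If `r s = s r`, then `s = r s r⁻¹ ∈ Rist (r w)`; `s` fixes all
vertices of level `≥ n + k` which are not below `w`, and all which are not below `r w`, so all of them,
hence also all of smaller level, and `s = 1`: contradiction.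
Second part: let `Q`, `i`, `t`, `σ` be as in the statement.  Fix `n`, a vertex `v` of level `n`, and
`c, d ∈ Rist v` with `c d ≠ d c`; `H` a normal subgroup of finite index of `Q` which does not contain
the commutator of `i c`, `i d`.  Let `x ∈ Γ`, `i x ∈ H`.  If `x v ≠ v`, then `x c x⁻¹ ∈ Rist (x v)`
commutes with `d` (disjoint supports; check on the vertices of level `≥ n`), but `i (x c x⁻¹) ≡ i c`
modulo `H`, so the commutator of `i c`, `i d` is in `H`: contradiction.  So `x v = v`; as `H` is normal and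
`Γ` transitive on level `n`, `x` fixes all vertices of level `n` (conjugate `x`).  So
`i x ∈ H → x ∈ St n`.  In the finite group `Q ⧸ H` the image of `i (σ Γ) = t (i Γ) t⁻¹` is contained in the
image of `i Γ` and has the same number of elements, so it is the same.  So for `g ∈ Γ` there is `h`
with `i (σ h) ≡ i g` modulo `H`, so `(σ h)⁻¹ g ∈ St n`. -/
def StmtRB : Prop :=
  (∀ (T : RTree) (Γ : Type) [Group Γ] (a : TAct T Γ), a.WeaklyBranch → ∀ (n : ℕ) (v : T.L n),
    ∃ r ∈ a.Rist v, ∃ s ∈ a.Rist v, r * s ≠ s * r) ∧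
  (∀ (T : RTree) (Γ Q : Type) [Group Γ] [Group Q] (a : TAct T Γ), a.WeaklyBranch → RF Q →
    ∀ (i : Γ →* Q), Function.Injective i → ∀ (σ : Γ →* Γ) (t : Q),
    (∀ g, t * i g * t⁻¹ = i (σ g)) → a.Dense σ)

/-- PACKET TP (invariant subgroups).
Proof.  (1) For every `m` there is `n` with `σ g ∈ St n → g ∈ St m`: let `v` be a vertex of level `m`,
`c, d ∈ Rist v` with `c d ≠ d c`; then `σ [c, d] ≠ 1` is not in `St n` for some `n`.  If `σ x ∈ St n`,
then `x v = v`, otherwise `x c x⁻¹` commutes with `d`, and modulo `St n`, `σ (x c x⁻¹) ≡ σ c`, so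
`σ [c, d] ∈ St n`.  By normality and transitivity `x ∈ St m` (this is the argument in RB).
(2) Call a normal subgroup `M` of `Γ` open if `St n ≤ M` for some `n`.  If `M` is open, then
`σ⁻¹ M = M.comap σ` is normal, and by density (`σ Γ M = Γ`) `Γ ⧸ σ⁻¹ M ≃ Γ ⧸ M`, in particular
`index (σ⁻¹ M) = index M`.  Moreover `M ↦ σ⁻¹ M` is injective on the open normal subgroups: if
`σ⁻¹ M = σ⁻¹ M'` and `x ∈ M`, let `St n ≤ M ⊓ M'` and `σ h ≡ x` modulo `St n`; then `σ h ∈ M`,
`h ∈ σ⁻¹ M = σ⁻¹ M'`, so `σ h ∈ M'`, `x ∈ M'`.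
(3) For `k ≥ 1` let `A_k` be the set of the open normal subgroups of index `k` and `B_k` the set of
the `σ⁻¹ M`, `M ∈ A_k`.  By (1) `A_k ⊆ B_k`: let `St m ≤ M ∈ A_k`, and `n` as in (1); then
`M' = σ(M) St n` (as a subgroup: `{y : ∃ h ∈ M, y ≡ σ h modulo St n}`, normal by density) is open and
`σ⁻¹ M' = M`: if `σ g = σ h u`, `h ∈ M`, `u ∈ St n`, then `σ (h⁻¹ g) ∈ St n`, `h⁻¹ g ∈ St m ≤ M`.  So
`M' ∈ A_k` by the index formula.  `A_k` is finite, as `Γ` is finitely generated (finitely many subgroups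
of index `k`: homomorphisms to `Perm (Fin k)`, determined by the images of the generators; or only
finitely many normal subgroups with quotient a group of order `k`).  The injective map
`M ↦ σ⁻¹ M` maps `A_k` onto `B_k ⊇ A_k`, so `A_k = B_k`.
(4) `C_k = ⋂ M ∈ A_k` is normal, of finite index, open (finite intersection), and
`σ⁻¹ C_k = ⋂ σ⁻¹ M = C_k`.  Given `n`, take `k = index (St n)`: `St n ∈ A_k`, so `C_k ≤ St n`. -/
def StmtTP : Prop := ∀ (T : RTree) (Γ : Type) [Group Γ] (a : TAct T Γ), Group.FG Γ →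
  a.WeaklyBranch → ∀ (σ : Γ →* Γ), Function.Injective σ → a.Dense σ →
  ∀ n, ∃ C : Subgroup Γ, C.Normal ∧ C.FiniteIndex ∧ C ≤ a.St n ∧ (∀ g, σ g ∈ C ↔ g ∈ C) ∧
    ∃ m, a.St m ≤ C

/-- PACKET NF (normal form in the ascending HNN extension, and residual finiteness).
Proof.  First part: the set of the elements `t^(-i) γ t^j` contains `Γ` and `t` and is closed under
products and inverses: `t γ = σ(γ) t`, `γ t⁻¹ = t⁻¹ σ(γ)`
(`HNNExtension.t_mul_of` etc. with `A = ⊤`, `B = σ.range`; `HNNExtension.induction_on`).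
Second part: the hypothesis on `Γ`.  Let `x = t^(-i) γ t^j ≠ 1`.  Let `χ : Asc σ → Multiplicative ℤ` with
`χ γ = 1`, `χ t = ofAdd 1` (`HNNExtension.lift`).  If `i ≠ j`, `χ x ≠ 1`, and a finite quotient of `ℤ` does
it.  If `i = j`, then `γ ≠ 1`; choose `C ∌ γ`.  `σ` induces an injective endomorphism, so an
automorphism `s`, of the finite group `Γ ⧸ C`.  Homomorphism of `Asc σ` to the finite group
`Perm (Γ ⧸ C)`: `γ ↦` left multiplication by `γ`, `t ↦ s` (`s (γ y) = σ(γ) s(y)`); `x ↦` a conjugate of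
the left multiplication by `γ ∉ C`, which is not `1`.  Take the kernel. -/
def StmtNF : Prop := ∀ (Γ : Type) [Group Γ] (σ : Γ →* Γ) (hσ : Function.Injective σ),
  (∀ x : Asc σ hσ, ∃ (i j : ℕ) (g : Γ),
    x = HNNExtension.t ^ (-(i : ℤ)) * HNNExtension.of g * HNNExtension.t ^ (j : ℤ)) ∧
  ((∀ g : Γ, g ≠ 1 → ∃ C : Subgroup Γ, C.Normal ∧ C.FiniteIndex ∧ g ∉ C ∧
    ∀ g, σ g ∈ C ↔ g ∈ C) → RF (Asc σ hσ))

/-- PACKET CL (the closure of `Γ` and the extension of `σ`).
Proof.  `D` = the subgroup of `∀ n, Perm (T.L n)` of the sequences `δ` with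
`T.par n (δ (n+1) v) = δ n (T.par n v)` and such that for all `n` there is `g ∈ Γ` with
`δ n = a.act n g`; `b.act n δ = δ n`, `ι g = (a.act n g)_n`.  `b` is weakly branch: faithful by
definition, transitive and with nontrivial rigid stabilisers as it contains `Γ` (`ι` is injective).
`τ`: let `δ ∈ D`, `n`; choose `m` (depending only on `n`) with `a.act m g = 1 → a.act n (σ g) = 1`, and `g`
with `a.act m g = δ m`; `(τ δ) n = a.act n (σ g)`; independent of `g`; compatible: for the level
`n + 1` take a `g'` with `a.act M g' = δ M`, `M` the maximum of the numbers `m` for `n` and `n + 1`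
(note that `a.act M g = 1 → a.act m g = 1` for `m ≤ M`).  Inverse: with `m` such that
`a.act m (σ g) = 1 → a.act n g = 1`, and by density and the definition of `D` an `h` with
`a.act m (σ h) = δ m`: `(τ' δ) n = a.act n h`. -/
def StmtCL : Prop := ∀ (T : RTree) (Γ : Type) [Group Γ] (a : TAct T Γ), a.WeaklyBranch →
  ∀ (σ : Γ →* Γ), a.Dense σ → (∀ n, ∃ m, ∀ g, a.act m g = 1 → a.act n (σ g) = 1) →
  (∀ n, ∃ m, ∀ g, a.act m (σ g) = 1 → a.act n g = 1) →
  ∃ (D : Type) (_ : Group D) (b : TAct T D) (ι : Γ →* D) (τ : D ≃* D), b.WeaklyBranch ∧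
    (∀ n g, b.act n (ι g) = a.act n g) ∧ (∀ n d, ∃ g, b.act n d = a.act n g) ∧
    (∀ g, τ (ι g) = ι (σ g)) ∧ (∀ n, ∃ m, ∀ d, b.act m d = 1 → b.act n (τ d) = 1) ∧
    (∀ n, ∃ m, ∀ d, b.act m d = 1 → b.act n (τ.symm d) = 1)

/-- the open support of `τ (Rist v)` on the boundary -/
def supp {T : RTree} {D : Type} [Group D] (b : TAct T D) (τ : D ≃* D) {n : ℕ} (v : T.L n) :
    Set T.Bd := {x | ∃ r ∈ b.Rist v, b.bd (τ r) x ≠ x}

/-- the hypotheses on `τ`: a bicontinuous automorphism of a weakly branch group -/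
def Bic {T : RTree} {D : Type} [Group D] (b : TAct T D) (τ : D ≃* D) : Prop :=
  b.WeaklyBranch ∧ (∀ n, ∃ m, ∀ d, b.act m d = 1 → b.act n (τ d) = 1) ∧
  (∀ n, ∃ m, ∀ d, b.act m d = 1 → b.act n (τ.symm d) = 1)

/-- PACKET S0 (facts on the supports; may assume RB; use `Pool/Agent/Helper62/WB/Basic.lean`).
Notation: `X = T.Bd`, `d x = b.bd d x`; for a vertex `v` of level `n`, `v` is also the set of the `x ∈ X`
with `x_n = v`, and `R v = Rist v` = the `d ∈ D` with `d x = x` for all `x ∉ v`.
(0) If `x ∈ supp v`, `τ(r) x ≠ x`, there is `k` such that `z_k = x_k` implies `τ(r) z ≠ z`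
(`k` with `(τ(r) x)_k ≠ x_k`).  `R w ⊆ R v` if `w` is a child of `v`.  `d R v d⁻¹ = R (d v)`, so
`x ∈ supp v ↔ τ(d) x ∈ supp (d v)`; and there is `m` such that `supp v` (`v` of level `n`) is
invariant under `St m`: for large `m`, `τ⁻¹ (St m) ≤ St n`, and `τ(d) x ∈ supp (d v) = supp v`.
(2) If `d` commutes with `R w` for a vertex `w` of level `k ≥ n` below `v`, then `d w = w` (otherwise
`1 ≠ c ∈ R w`, `c = d c d⁻¹ ∈ R (d w)`, so `c` fixes all points).  So if `d` commutes with `R v`, it fixes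
all vertices `x_k`, `k ≥ n`, for `x ∈ v`, so all points of `v`. -/
def StmtS0 : Prop := ∀ (T : RTree) (D : Type) [Group D] (b : TAct T D) (τ : D ≃* D), Bic b τ →
  (∀ n (v : T.L n), ∀ x ∈ supp b τ v, ∃ k, ∀ z : T.Bd, z.1 k = x.1 k → z ∈ supp b τ v) ∧
  (∀ n (w : T.L (n + 1)), supp b τ w ⊆ supp b τ (T.par n w)) ∧
  (∀ n (v : T.L n) d x, x ∈ supp b τ v ↔ b.bd (τ d) x ∈ supp b τ (b.act n d v)) ∧
  (∀ n, ∃ m, ∀ (v : T.L n) d x, b.act m d = 1 → x ∈ supp b τ v → b.bd d x ∈ supp b τ v) ∧
  (∀ n (v : T.L n) (d : D), (∀ c ∈ b.Rist v, d * c = c * d) → ∀ x : T.Bd, x.1 n = v →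
    b.bd d x = x)

/-- PACKET S1 (the supports are disjoint; may assume RB, S0).
Proof.  If `v ≠ w` are of the same level `n`: let `x ∈ supp v`, `x ∈ supp w`; `a ∈ τ(R v)`,
`a x ≠ x`, `b ∈ τ(R w)`, `b x ≠ x`.  Let `m` be so large that `a`, `b` move `x_m` and
`τ⁻¹(St m) ≤ St n`.  Let `r, s ∈ R (x_m)`, `r s ≠ s r` (RB).  `r, s ∈ St m`, so `r = τ(r')`, `r' ∈ St n`
normalises `R v` (`r' v = v`), so `a₁ = a⁻¹ r⁻¹ a r ∈ τ(R v)`, and `b₁ = b⁻¹ s⁻¹ b s ∈ τ(R w)`.
`R v` and `R w` commute, so `a₁ b₁ = b₁ a₁`.  If `y ∈ x_m`: `r y ∈ x_m`, `a r y ∉ x_m`, so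
`a₁ y = r y`, similarly `b₁ y = s y`; so `r s y = s r y`.  If `y ∉ x_m`, `r`, `s` fix `y`.  So
`r s = s r` by faithfulness: contradiction. -/
def StmtS1 : Prop := ∀ (T : RTree) (D : Type) [Group D] (b : TAct T D) (τ : D ≃* D), Bic b τ →
  ∀ n (v w : T.L n), v ≠ w → Disjoint (supp b τ v) (supp b τ w)

/-- PACKET S2 (the supports cover the boundary; may assume S0).
Proof.  Let `E` be the set of the `x` in no `supp v`, `v` of level `n`, and suppose `x ∈ E`.  `E` is
invariant under `St m` for some `m` (S0, fourth part; `St m` is a group).  Let `c_k` be the number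
of orbits of `St m` on level `k`; it is nondecreasing in `k` and at most the index of `St m`
(transitivity on level `k`), which is finite.  So `c_k` is constant for `k ≥ k₀`, and two vertices
of level `k ≥ k₀` are in the same orbit if their ancestors of level `k₀` are in the same
orbit.  So for every `z ∈ X` with `z_(k₀) = x_(k₀)` and every `k` there is `d ∈ St m` with
`(d x)_k = z_k`.  So `z ∈ E` (otherwise by S0, first part, `d x ∈ supp v` for large `k`).  So the set
`x_(k₀)` is disjoint from all `supp v`.  Let `1 ≠ r ∈ R (x_(k₀))`; `r` commutes with `τ(R v)` for all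
`v` of level `n` (every element of `τ(R v)` fixes the points of `x_(k₀)` and `r` fixes the
others and preserves `x_(k₀)`).  So `τ⁻¹(r)` commutes with `R v` for all `v` of level `n`, and by S0,
last part, it fixes all points, `τ⁻¹(r) = 1`: contradiction. -/
def StmtS2 : Prop := ∀ (T : RTree) (D : Type) [Group D] (b : TAct T D) (τ : D ≃* D), Bic b τ →
  ∀ n (x : T.Bd), ∃ v : T.L n, x ∈ supp b τ v

/-- PACKET S3 (a bicontinuous automorphism is induced by a homeomorphism of the boundary; may assume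
S0, S1, S2).
Proof.  Let `g_τ(x)_n` be the `v` of level `n` with `x ∈ supp τ v` (unique by S1, exists by S2);
`g_τ : X → X` by S0 (second part), `g_τ (τ(d) x) = d g_τ(x)` (third part), and `g_τ` is continuous
(first part).  The same for `τ⁻¹` (`Bic b τ.symm`): `g_(τ⁻¹)`.  `g_(τ⁻¹) (g_τ (y)) = y`: let
`x = g_τ(y)`, and suppose `x ∉ supp' (y_n)`, where `supp'` is for `τ⁻¹`.  `x ∈ supp' w` for another `w`
of level `n`; there is `m ≥ n` with `x_m ⊆ supp' w`, which is disjoint from `supp' (y_n)`.  So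
`R (x_m)` commutes with `τ⁻¹(R (y_n))` (the elements of the latter fix the points of `x_m`), and
`τ(R (x_m))` commutes with `R (y_n)`, so it fixes `y` by S0, last part.  But `y ∈ supp (x_m)`:
contradiction.  So `f = g_(τ⁻¹)` is a permutation with inverse `g_τ`, and `f (d x) = τ(d) f(x)`. -/
def StmtS3 : Prop := ∀ (T : RTree) (D : Type) [Group D] (b : TAct T D) (τ : D ≃* D), Bic b τ →
  ∃ f : Equiv.Perm T.Bd, Cts f ∧ Cts f⁻¹ ∧ ∀ d x, f (b.bd d x) = b.bd (τ d) (f x)

/-- PACKET TR (the tree of `Q`).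
`Q` acts on `X = T.Bd` by `ρ`, by homeomorphisms normalising the group `D`; `Γ` is a finitely generated
dense subgroup of `D`, contained in `Q`.
Proof.  (1) `Q` acts on the set of subsets of `X`.  For a vertex `v` of level `n` let
`U_v = {x : x_n = v}`.  Let `S_n` be the set of the subsets `ρ(q) U_v`, `q ∈ Q`, `v` of level `n`.
`S_n` is finite: let `U = ρ(q) U_v`.  `Γ` acts on the finite set of the `#(T.L n)` sets `ρ(q) U_w`, because
`ρ(i γ) ρ(q) U_w = ρ(q) (ρ(q)⁻¹ ρ(i γ) ρ(q)) U_w`, and `ρ(q)⁻¹ ρ(i γ) ρ(q)` is in the image of `D` in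
`Perm X`, so it permutes the sets `U_w`.  So the stabiliser of `U` in `Γ` has index at most
`#(T.L n)`.  As `Γ` is finitely generated, the intersection `Λ` of all subgroups of `Γ` of index at most
`#(T.L n)` has finite index; so all `U ∈ S_n` are `Λ`-invariant.  All `U ∈ S_n` are locally constant
(for every `y ∈ X` there is `k` such that `z_k = y_k` implies `z ∈ U ↔ y ∈ U`), as `ρ(q)⁻¹` is
continuous.  Fix `x ∈ X` and representatives `γ_1, .., γ_M` of `Λ \ Γ`.  Every `y ∈ X` is in
the closure of some `Λ γ_j x` (for every `k` there are `j` and `λ` with `(λ γ_j x)_k = y_k` by transitivity;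
some `j` occurs for infinitely many `k`, so works for all `k`).  So for a `Λ`-invariant locally
constant `U`: `y ∈ U ↔ γ_j x ∈ U`.  So `U` is determined by the set of the `j` with `γ_j x ∈ U`.
(2) The tree `T'`: `T'.L n` is the quotient of `X` by: `x ~ y` iff `x ∈ U ↔ y ∈ U` for all `m ≤ n`,
`U ∈ S_m`.  Finite by (1); one point for `n = 0` (`S_0 = {X}`; `X` is nonempty); the parent maps are
the obvious maps, surjective.  `Q` acts, as `S_m` is invariant under `ρ(Q)`.
(3) The classes are locally constant, so nonempty open.  `Γ` is transitive on `T'.L n`: for `x, y`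
there is `k` such that the class of `y` contains all `z` with `z_k = y_k`, and `γ` with `(γ x)_k = y_k`.
(4) Let `q ∈ Q` act trivially on all `T'.L n`.  Then `ρ(q) x ~ x` for all `n`, so
`(ρ(q) x)_n = x_n` (as `U_(x_n) ∈ S_n`); so `ρ(q) = 1`.  So `Q ⧸ ρ.ker` acts faithfully.
(5) Rigid stabilisers: let `u ∈ T'.L n` be the class of `y`; `k` with: `z_k = y_k` implies `z ∈ u`;
`1 ≠ c ∈ Γ`, `c` in the rigid stabiliser of `y_k` in `T`.  `c` fixes all `x ∉ u`, so `c` fixes all vertices
of `T'` of level `≥ n` which are not below `u`; and `ρ(i c) ≠ 1`. -/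
def StmtTR : Prop := ∀ (T : RTree) (Γ D Q : Type) [Group Γ] [Group D] [Group Q] (a : TAct T Γ)
  (b : TAct T D) (i : Γ →* Q) (ρ : Q →* Equiv.Perm T.Bd), Group.FG Γ → a.WeaklyBranch →
  (∀ n d, ∃ g, b.act n d = a.act n g) → (∀ g, ρ (i g) = a.bd g) → (∀ q, Cts (ρ q)) →
  (∀ q g, ∃ d, ρ q * a.bd g * (ρ q)⁻¹ = b.bd d) → IsWB (Q ⧸ ρ.ker)

/-- PACKET KE (the kernel of the action on the boundary; may assume NF).
Proof.  `χ : Asc σ → Multiplicative ℤ`, `χ γ = 1`, `χ t = ofAdd 1`; if `χ x = 1`, then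
`x = t^(-i) γ t^i` (NF).  (1) If moreover `ρ x = 1`, then `ρ γ = 1`, so `γ = 1` (faithful: `a.bd g = 1`
implies `g = 1` as every vertex has a point below it), `x = 1`.  So `χ` is injective on `ρ.ker`: hence
`ρ.ker` is cyclic, and its elements `≠ 1` have infinite order.  (2) `ρ.ker ≤` centraliser: let
`ρ q = 1`, `γ ∈ Γ`; `c = q γ q⁻¹ γ⁻¹` has `χ c = 1` and `ρ c = 1`, so `c = 1`.  (3) Let `q` centralise
`Γ`, `p = ρ q`, and suppose `p x ≠ x`, so `(p x)_n ≠ x_n` for some `n`.  By continuity there is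
`k ≥ n` such that `z_k = x_k` implies `(p z)_n = (p x)_n ≠ x_n = z_n`, so `(p z)_k ≠ x_k`.  Let `1 ≠ s` in the
rigid stabiliser of `x_k` in `Γ`; it moves some `z` with `z_k = x_k`, and `(s z)_k = x_k`.  Then
`p (s z) = s (p z) = p z`, because `p z` is not below `x_k`.  So `s z = z`: contradiction. -/
def StmtKE : Prop := ∀ (T : RTree) (Γ : Type) [Group Γ] (a : TAct T Γ), a.WeaklyBranch →
  ∀ (σ : Γ →* Γ) (hσ : Function.Injective σ) (ρ : Asc σ hσ →* Equiv.Perm T.Bd),
  (∀ g, ρ (HNNExtension.of g) = a.bd g) → (∀ q, Cts (ρ q)) →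
  ρ.ker = Subgroup.centralizer
    ((HNNExtension.of : Γ →* Asc σ hσ).range : Set (Asc σ hσ)) ∧
  (∃ z, ρ.ker = Subgroup.zpowers z) ∧ ∀ q ∈ ρ.ker, q ≠ 1 → ¬ IsOfFinOrder q

/-- PACKET QF (quotients of finitely presented groups).
Proof.  `π : F_k → G`, `ker π = ⟨⟨R⟩⟩`; for the elements `x` of the finite set `B` choose `u_x ∈ F_k` with
`π u_x = x`.  The kernel of `F_k → G → G ⧸ M` is the normal closure of `R ∪ {u_x}`
(`Subgroup.comap`/`map` of normal closures along the surjection `π`). -/
def StmtQF : Prop := ∀ (G : Type) [Group G] (M : Subgroup G) [M.Normal], FP G →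
  (∃ B : Finset G, M = Subgroup.normalClosure (B : Set G)) → FP (G ⧸ M)

/-- PACKET QF2 (`StableS` implies `Stable` and `FP`).
Proof.  `R₀ = R`, `δ / (#R + 1)`, `ε / 2`; the kernel of `F_k → G` is the normal closure of `R`. -/
def StmtQF2 : Prop := ∀ (G : Type) [Group G], StableS G → Stable G ∧ FP G

/-- THE MAIN THEOREM (helper62).
(1) If an amenable group `G` which is stable in permutations has a normal subgroup `N`, finitely
generated as a group, such that `G ⧸ N` is the ascending HNN extension of a weakly branch group `Γ`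
along `σ`, then `σ Γ` is congruence dense in `Γ`.
(2) If moreover `Γ` is finitely generated and `G` is finitely presented, then `G` has a quotient which
is a finitely presented weakly branch group.
(3) (1) and (2) for the finitely presented groups stable in the sense of the frozen statement.
(4) For a finitely generated weakly branch group `Γ` the ascending HNN extension is residually
finite if and only if `σ Γ` is congruence dense in `Γ`.
(5) In this case the centraliser `C` of `Γ` in the HNN extension `Q` is normal and is trivial or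
infinite cyclic, and `Q ⧸ C` is a weakly branch group. -/
def StmtMain : Prop :=
  (∀ (T : RTree) (Γ : Type) [Group Γ] (a : TAct T Γ), a.WeaklyBranch →
    ∀ (σ : Γ →* Γ) (hσ : Function.Injective σ) (G : Type) [Group G], Amen G →
    ∀ (N : Subgroup G) [N.Normal], N.FG → Nonempty (G ⧸ N ≃* Asc σ hσ) →
    (Stable G → a.Dense σ ∧ (Group.FG Γ → FP G → ∃ M : Subgroup G, ∃ _ : M.Normal, N ≤ M ∧
      FP (G ⧸ M) ∧ IsWB (G ⧸ M))) ∧
    (StableS G → a.Dense σ ∧ (Group.FG Γ → ∃ M : Subgroup G, ∃ _ : M.Normal, N ≤ M ∧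
      FP (G ⧸ M) ∧ IsWB (G ⧸ M)))) ∧
  (∀ (T : RTree) (Γ : Type) [Group Γ] (a : TAct T Γ), a.WeaklyBranch → Group.FG Γ →
    ∀ (σ : Γ →* Γ) (hσ : Function.Injective σ),
    (RF (Asc σ hσ) ↔ a.Dense σ) ∧
    (a.Dense σ → ∃ C : Subgroup (Asc σ hσ), ∃ _ : C.Normal,
      C = Subgroup.centralizer ((HNNExtension.of : Γ →* Asc σ hσ).range : Set (Asc σ hσ)) ∧
      (∃ z, C = Subgroup.zpowers z) ∧ (∀ q ∈ C, q ≠ 1 → ¬ IsOfFinOrder q) ∧
      IsWB (Asc σ hσ ⧸ C)))

end Pool.Agent.Helper62.WB
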