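import Mathlib

/-!
# Ascending HNN extensions of weakly branch groups and stability in permutations (MP_08df5f_al)

Definitions.
-/

set_option autoImplicit false

namespace Pool.Agent.Helper62.WB

open scoped Classical

/-! ### groups -/

/-- normalised Hamming distance of two permutations of `Fin n` -/
noncomputable def dH {n : ℕ} (a b : Equiv.Perm (Fin n)) : ℝ :=
  ((Finset.univ.filter (fun i => a i ≠ b i)).card : ℝ) / n

/-- `G` is finitely generated and stable in permutations: there is a finite generating tuple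
(a surjection `π` of a free group of finite rank onto `G`) such that for every `ε > 0` there are a
finite set `R₀` of relations and `δ > 0` such that every `δ`-almost solution of `R₀` in a finite
symmetric group is `ε`-close to a tuple satisfying all the relations of `G`. -/
def Stable (G : Type) [Group G] : Prop :=
  ∃ (k : ℕ) (π : FreeGroup (Fin k) →* G), Function.Surjective π ∧
    ∀ ε : ℝ, 0 < ε → ∃ R₀ : Finset (FreeGroup (Fin k)), (∀ r ∈ R₀, π r = 1) ∧
      ∃ δ : ℝ, 0 < δ ∧ ∀ (n : ℕ), 1 ≤ n → ∀ p : Fin k → Equiv.Perm (Fin n),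
        (∀ r ∈ R₀, dH (FreeGroup.lift p r) 1 < δ) →
        ∃ q : Fin k → Equiv.Perm (Fin n), (∀ r, π r = 1 → FreeGroup.lift q r = 1) ∧
          ∀ s, dH (p s) (q s) < ε

/-- stability in permutations for finitely presented groups, word for word as in the frozen
statement `S00663` -/
def StableS (G : Type) [Group G] : Prop :=
  ∃ (k : ℕ) (R : Finset (FreeGroup (Fin k))),
    Nonempty (G ≃* PresentedGroup (R : Set (FreeGroup (Fin k)))) ∧
    ∀ ε : ℝ, 0 < ε → ∃ δ : ℝ, 0 < δ ∧
      ∀ (n : ℕ) (σ : Fin k → Equiv.Perm (Fin n)),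
        (∑ r ∈ R, ((Finset.univ.filter
            (fun i : Fin n => (FreeGroup.lift σ r) i ≠ i)).card : ℝ) / n) ≤ δ →
        ∃ τ : Fin k → Equiv.Perm (Fin n),
          (∀ r ∈ R, FreeGroup.lift τ r = 1) ∧
          (∑ s : Fin k, ((Finset.univ.filter
            (fun i : Fin n => σ s i ≠ τ s i)).card : ℝ) / n) ≤ ε

/-- amenable: there is an invariant finitely additive probability measure on all subsets -/
def Amen (G : Type) [Group G] : Prop :=
  ∃ μ : Set G → ℝ, (∀ A, 0 ≤ μ A) ∧ μ Set.univ = 1 ∧
    (∀ A B : Set G, Disjoint A B → μ (A ∪ B) = μ A + μ B) ∧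
    ∀ (g : G) (A : Set G), μ ((fun x => g * x) '' A) = μ A

/-- Foelner's condition -/
def Foel (G : Type) [Group G] : Prop :=
  ∀ (S : Finset G) (ε : ℝ), 0 < ε → ∃ F : Finset G, F.Nonempty ∧
    ∀ s ∈ S, ((F.filter (fun x => s * x ∉ F)).card : ℝ) ≤ ε * F.card

/-- residually finite -/
def RF (G : Type) [Group G] : Prop :=
  ∀ g : G, g ≠ 1 → ∃ H : Subgroup G, H.Normal ∧ H.FiniteIndex ∧ g ∉ H

/-- finitely presented -/
def FP (G : Type) [Group G] : Prop :=
  ∃ (k : ℕ) (π : FreeGroup (Fin k) →* G) (R : Finset (FreeGroup (Fin k))),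
    Function.Surjective π ∧ π.ker = Subgroup.normalClosure (R : Set (FreeGroup (Fin k)))

/-! ### rooted trees -/

/-- a rooted tree, all of whose levels are finite and all of whose vertices have a child: the set
`L n` of vertices of level `n`, and the parent maps -/
structure RTree where
  L : ℕ → Type
  fin : ∀ n, Finite (L n)
  root : ∃ v : L 0, ∀ w, w = v
  par : ∀ n, L (n + 1) → L n
  par_surj : ∀ n, Function.Surjective (par n)

/-- the ancestor of level `n` of a vertex of level `n + k` -/
def RTree.anc (T : RTree) (n : ℕ) : ∀ k, T.L (n + k) → T.L n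
  | 0 => id
  | k + 1 => fun v => T.anc n k (T.par (n + k) v)

/-- an action of `G` on the rooted tree by automorphisms -/
structure TAct (T : RTree) (G : Type) [Group G] where
  act : ∀ n, G →* Equiv.Perm (T.L n)
  par_act : ∀ n g v, T.par n (act (n + 1) g v) = act n g (T.par n v)

variable {T : RTree} {G : Type} [Group G]

/-- the stabiliser of level `n` (the elements which fix every vertex of level `n`) -/
def TAct.St (a : TAct T G) (n : ℕ) : Subgroup G := (a.act n).ker

/-- the rigid stabiliser of the vertex `v` of level `n`: the elements which fix all vertices which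
are not below `v` -/
def TAct.Rist (a : TAct T G) {n : ℕ} (v : T.L n) : Set G :=
  {g | ∀ k (w : T.L (n + k)), T.anc n k w ≠ v → a.act (n + k) g w = w}

/-- weakly branch: the action is faithful, transitive on every level, and all rigid stabilisers are
nontrivial -/
structure TAct.WeaklyBranch (a : TAct T G) : Prop where
  faithful : ∀ g, (∀ n, a.act n g = 1) → g = 1
  trans : ∀ n (v w : T.L n), ∃ g, a.act n g v = w
  rist : ∀ n (v : T.L n), ∃ g ∈ a.Rist v, g ≠ 1

/-- `G` is (isomorphic to) a weakly branch group -/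
def IsWB (G : Type) [Group G] : Prop := ∃ (T : RTree) (a : TAct T G), a.WeaklyBranch

/-- the isomorphism of `Γ` onto the image of the injective endomorphism `σ` -/
noncomputable def ascEquiv {Γ : Type} [Group Γ] (σ : Γ →* Γ) (hσ : Function.Injective σ) :
    (⊤ : Subgroup Γ) ≃* σ.range :=
  Subgroup.topEquiv.trans (MonoidHom.ofInjective hσ)

/-- the ascending HNN extension of `Γ` along the injective endomorphism `σ`:
`⟨Γ, t | t γ t⁻¹ = σ γ⟩` -/
abbrev Asc {Γ : Type} [Group Γ] (σ : Γ →* Γ) (hσ : Function.Injective σ) : Type :=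
  HNNExtension Γ ⊤ σ.range (ascEquiv σ hσ)

/-- the image of `σ` is congruence dense: `Γ` and `σ Γ` induce the same permutations on every
level -/
def TAct.Dense {Γ : Type} [Group Γ] (a : TAct T Γ) (σ : Γ →* Γ) : Prop :=
  ∀ n (g : Γ), ∃ h : Γ, a.act n (σ h) = a.act n g

/-! ### the boundary -/

/-- the boundary of the tree -/
def RTree.Bd (T : RTree) : Type := {x : ∀ n, T.L n // ∀ n, T.par n (x (n + 1)) = x n}

/-- the action of an element on the boundary -/
def TAct.bdFun (a : TAct T G) (g : G) (x : T.Bd) : T.Bd :=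
  ⟨fun n => a.act n g (x.1 n), fun n => by rw [a.par_act, x.2]⟩

/-- the action on the boundary -/
def TAct.bd (a : TAct T G) : G →* Equiv.Perm T.Bd where
  toFun g := ⟨a.bdFun g, a.bdFun g⁻¹, fun x => by
    apply Subtype.ext
    funext n
    simp [TAct.bdFun], fun x => by
    apply Subtype.ext
    funext n
    simp [TAct.bdFun]⟩
  map_one' := by
    ext x
    apply Subtype.ext
    funext n
    simp [TAct.bdFun]
  map_mul' g h := by
    ext x
    apply Subtype.ext
    funext n
    simp [TAct.bdFun]

@[simp] theorem TAct.bd_apply (a : TAct T G) (g : G) (x : T.Bd) (n : ℕ) :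
    (a.bd g x).1 n = a.act n g (x.1 n) := rfl

/-- a permutation of the boundary is continuous -/
def Cts (p : Equiv.Perm T.Bd) : Prop :=
  ∀ (x : T.Bd) (n : ℕ), ∃ k, ∀ z : T.Bd, z.1 k = x.1 k → (p z).1 n = (p x).1 n

end Pool.Agent.Helper62.WB
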