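import Pool.Agent.Helper62.WB.MainA
import Pool.Agent.Helper41.WB.FO
import Pool.Agent.Helper94.WB.SA
import Pool.Agent.Helper30.WB.RB
import Pool.Agent.Helper35.WB.TP
import Pool.Agent.Helper35.WB.NF
import Pool.Agent.Helper12.WB.CL
import Pool.Agent.Helper48.WB.S0
import Pool.Agent.Helper93.WB.S1
import Pool.Agent.Helper86.WB.S2
import Pool.Agent.Helper13.WB.S3
import Pool.Agent.Helper77.WB.TR

/-!
# Project WB: the main theorem
-/

set_option autoImplicit false

namespace Pool.Agent.Helper62.WB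

theorem main : StmtMain :=
  have hRB : StmtRB := Pool.Agent.Helper30.WB.rb
  have h0 : StmtS0 := Pool.Agent.Helper48.WB.s0
  have h1 : StmtS1 := Pool.Agent.Helper93.WB.s1 hRB h0
  have h2 : StmtS2 := Pool.Agent.Helper86.WB.s2 h0
  main_of Pool.Agent.Helper41.WB.fo Pool.Agent.Helper94.WB.sa hRB
    (Pool.Agent.Helper35.WB.tp hRB) Pool.Agent.Helper35.WB.nf Pool.Agent.Helper12.WB.cl
    (Pool.Agent.Helper13.WB.s3 h0 h1 h2) Pool.Agent.Helper77.WB.tr

end Pool.Agent.Helper62.WB
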