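import Pool.Agent.Helper62.WB.Goals

/-!
# Project WB, packets QF and QF2: finite presentations
-/

set_option autoImplicit false

namespace Pool.Agent.Helper62.WB

open scoped Classical

theorem qf : StmtQF := by
  intro G _ M _ ⟨k, π, R, hπ, hR⟩ ⟨B, hB⟩
  choose u hu using hπ
  refine ⟨k, (QuotientGroup.mk' M).comp π, R ∪ B.image u, ?_, ?_⟩
  · exact (QuotientGroup.mk'_surjective M).comp (fun g => ⟨u g, hu g⟩)
  · apply le_antisymm
    · intro x hx
      rw [MonoidHom.mem_ker, MonoidHom.comp_apply] at hx
      have h1 : π x ∈ M := by simpa using hx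
      -- `map π` of the normal closure contains `M`
      set K : Subgroup (FreeGroup (Fin k)) :=
        Subgroup.normalClosure ((R ∪ B.image u : Finset (FreeGroup (Fin k))) : Set _) with hK
      have h2 : M ≤ K.map π := by
        have hn : (K.map π).Normal := (inferInstance : K.Normal).map π (fun g => ⟨u g, hu g⟩)
        rw [hB]
        refine Subgroup.normalClosure_le_normal ?_
        intro b hb
        refine ⟨u b, ?_, hu b⟩
        apply Subgroup.subset_normalClosure
        simp only [Finset.coe_union, Finset.coe_image, Set.mem_union, Set.mem_image]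
        exact Or.inr ⟨b, hb, rfl⟩
      obtain ⟨y, hy, hxy⟩ := h2 h1
      have h3 : y⁻¹ * x ∈ π.ker := by
        rw [MonoidHom.mem_ker, map_mul, map_inv, hxy]
        simp
      rw [hR] at h3
      have h4 : Subgroup.normalClosure (R : Set (FreeGroup (Fin k))) ≤ K := by
        refine Subgroup.normalClosure_mono ?_
        intro r hr
        simp only [Finset.coe_union, Set.mem_union]
        exact Or.inl hr
      have h5 := K.mul_mem hy (h4 h3)
      simpa using h5
    · refine Subgroup.normalClosure_le_normal ?_
      intro r hr
      simp only [Finset.coe_union, Finset.coe_image, Set.mem_union, Set.mem_image] at hr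
      show r ∈ ((QuotientGroup.mk' M).comp π).ker
      rw [MonoidHom.mem_ker, MonoidHom.comp_apply]
      rcases hr with hr | ⟨b, hb, rfl⟩
      · have h1 : r ∈ π.ker := by
          rw [hR]
          exact Subgroup.subset_normalClosure hr
        rw [MonoidHom.mem_ker.1 h1]
        simp
      · rw [hu b]
        have h1 : b ∈ M := by
          rw [hB]
          exact Subgroup.subset_normalClosure hb
        simpa using h1

theorem qf2 : StmtQF2 := by
  intro G _ ⟨k, R, ⟨e⟩, h⟩
  have hsurj : Function.Surjective
      (e.symm.toMonoidHom.comp (PresentedGroup.mk (R : Set (FreeGroup (Fin k))))) := by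
    exact e.symm.surjective.comp (PresentedGroup.mk_surjective _)
  have hker : (e.symm.toMonoidHom.comp (PresentedGroup.mk (R : Set (FreeGroup (Fin k))))).ker
      = Subgroup.normalClosure (R : Set (FreeGroup (Fin k))) := by
    ext x
    rw [MonoidHom.mem_ker, MonoidHom.comp_apply]
    constructor
    · intro hx
      have h1 : PresentedGroup.mk (R : Set (FreeGroup (Fin k))) x = 1 := by
        have := congrArg e hx
        simpa using this
      exact (QuotientGroup.eq_one_iff x).1 h1
    · intro hx
      have h1 : PresentedGroup.mk (R : Set (FreeGroup (Fin k))) x = 1 :=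
        (QuotientGroup.eq_one_iff x).2 hx
      rw [h1]
      simp
  refine ⟨⟨k, _, hsurj, fun ε hε => ?_⟩, ⟨k, _, R, hsurj, hker⟩⟩
  obtain ⟨δ, hδ, h1⟩ := h (ε / 2) (by linarith)
  refine ⟨R, fun r hr => ?_, δ / (R.card + 1), by positivity, fun n hn p hp => ?_⟩
  · have : r ∈ (e.symm.toMonoidHom.comp (PresentedGroup.mk (R : Set (FreeGroup (Fin k))))).ker := by
      rw [hker]
      exact Subgroup.subset_normalClosure hr
    exact this
  · obtain ⟨q, hq1, hq2⟩ := h1 n p (by
      calc (∑ r ∈ R, ((Finset.univ.filter
            (fun i : Fin n => (FreeGroup.lift p r) i ≠ i)).card : ℝ) / n)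
          ≤ ∑ r ∈ R, δ / (R.card + 1) := Finset.sum_le_sum fun r hr => (hp r hr).le
        _ = R.card * (δ / (R.card + 1)) := by rw [Finset.sum_const, nsmul_eq_mul]
        _ ≤ δ := by
          rw [mul_div_assoc', div_le_iff₀ (by positivity)]
          nlinarith [hδ.le])
    refine ⟨q, fun r hr => ?_, fun s => ?_⟩
    · have hr' : r ∈ (e.symm.toMonoidHom.comp
          (PresentedGroup.mk (R : Set (FreeGroup (Fin k))))).ker := hr
      rw [hker] at hr'
      have h2 : Subgroup.normalClosure (R : Set (FreeGroup (Fin k))) ≤ (FreeGroup.lift q).ker :=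
        Subgroup.normalClosure_le_normal fun r hr => hq1 r hr
      exact h2 hr'
    · have h2 := Finset.single_le_sum (f := fun s : Fin k => ((Finset.univ.filter
            (fun i : Fin n => p s i ≠ q s i)).card : ℝ) / n) (s := Finset.univ)
          (fun s _ => by positivity) (Finset.mem_univ s)
      have h3 : dH (p s) (q s) ≤ ε / 2 := h2.trans hq2
      linarith

end Pool.Agent.Helper62.WB
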