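import Pool.Agent.Helper62.WB.Goals
import Pool.Agent.Helper62.WB.Basic

/-!
# Project WB, packet KE: the kernel of the action on the boundary
-/

set_option autoImplicit false

namespace Pool.Agent.Helper62.WB

open scoped Classical

/-- the exponent sum of the stable letter -/
noncomputable def chi {Γ : Type} [Group Γ] (σ : Γ →* Γ) (hσ : Function.Injective σ) :
    Asc σ hσ →* Multiplicative ℤ :=
  HNNExtension.lift 1 (Multiplicative.ofAdd 1) (by intro a; simp)

theorem chi_of {Γ : Type} [Group Γ] (σ : Γ →* Γ) (hσ : Function.Injective σ) (g : Γ) :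
    chi σ hσ (HNNExtension.of g) = 1 := by
  simp [chi]

theorem chi_t {Γ : Type} [Group Γ] (σ : Γ →* Γ) (hσ : Function.Injective σ) :
    chi σ hσ HNNExtension.t = Multiplicative.ofAdd 1 := by
  simp [chi]

theorem ke (hNF : StmtNF) : StmtKE := by
  intro T Γ _ a ha σ hσ ρ hρ hc
  have hchi : ∀ x : Asc σ hσ, chi σ hσ x = 1 → ∃ (i : ℕ) (g : Γ),
      x = HNNExtension.t ^ (-(i : ℤ)) * HNNExtension.of g * HNNExtension.t ^ (i : ℤ) := by
    intro x hx
    obtain ⟨i, j, g, rfl⟩ := (hNF Γ σ hσ).1 x
    rw [map_mul, map_mul, map_zpow, map_zpow, chi_of, chi_t, mul_one, ← zpow_add] at hx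
    have h1 : (-(i : ℤ) + j) = 0 := by
      have h2 : Multiplicative.ofAdd ((-(i : ℤ) + j) • (1 : ℤ)) = Multiplicative.ofAdd 0 := by
        rw [ofAdd_zsmul]
        exact hx
      have h3 := Multiplicative.ofAdd.injective h2
      simpa using h3
    have h4 : j = i := by omega
    subst h4
    exact ⟨j, g, rfl⟩
  have hinj : ∀ x : Asc σ hσ, chi σ hσ x = 1 → ρ x = 1 → x = 1 := by
    intro x hx hx2
    obtain ⟨i, g, rfl⟩ := hchi x hx
    have h1 : ρ (HNNExtension.of g) = 1 := by
      have h2 : ρ (HNNExtension.t ^ (-(i : ℤ))) * ρ (HNNExtension.of g) *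
          ρ (HNNExtension.t ^ (i : ℤ)) = 1 := by
        rw [← map_mul, ← map_mul]
        exact hx2
      rw [zpow_neg, map_inv] at h2
      have h3 : ρ (HNNExtension.of g) = ρ (HNNExtension.t ^ (i : ℤ)) *
          (ρ (HNNExtension.t ^ (i : ℤ)))⁻¹ := by
        have h4 : (ρ (HNNExtension.t ^ (i : ℤ)))⁻¹ * (ρ (HNNExtension.of g) *
          ρ (HNNExtension.t ^ (i : ℤ))) = 1 := by
          rw [← mul_assoc]
          exact h2
        have h5 := (inv_mul_eq_one.mp h4)
        rw [mul_inv_eq_one.mpr rfl]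
        have h6 : ρ (HNNExtension.of g) * ρ (HNNExtension.t ^ (i : ℤ)) =
          1 * ρ (HNNExtension.t ^ (i : ℤ)) := by rw [one_mul]; exact h5.symm
        exact mul_right_cancel h6
      rw [h3, mul_inv_cancel]
    rw [hρ] at h1
    have h2 : g = 1 := bd_injective ha (by rw [h1, map_one])
    rw [h2]
    simp
  have hker1 : ∀ q ∈ ρ.ker, chi σ hσ q = 1 → q = 1 := fun q hq h => hinj q h hq
  refine ⟨?_, ?_, ?_⟩
  · ext q
    rw [MonoidHom.mem_ker, Subgroup.mem_centralizer_iff]
    constructor
    · intro hq y hy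
      obtain ⟨g, rfl⟩ := hy
      have h1 : q * HNNExtension.of g * q⁻¹ * (HNNExtension.of g)⁻¹ = 1 := by
        apply hinj
        · rw [map_mul, map_mul, map_mul, map_inv, map_inv, chi_of]
          simp
        · rw [map_mul, map_mul, map_mul, map_inv, map_inv, hq]
          simp
      have h2 : q * HNNExtension.of g * q⁻¹ = HNNExtension.of g := mul_inv_eq_one.mp h1
      exact (mul_inv_eq_iff_eq_mul.mp h2).symm
    · intro hq
      have hcomm : ∀ g x, ρ q (a.bd g x) = a.bd g (ρ q x) := by
        intro g x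
        have h1 := hq (HNNExtension.of g) ⟨g, rfl⟩
        have h2 := congrArg ρ h1
        rw [map_mul, map_mul, hρ] at h2
        have h3 := congrArg (fun p : Equiv.Perm T.Bd => p x) h2
        exact h3.symm
      ext x
      by_contra hx
      have hx' : ρ q x ≠ x := hx
      obtain ⟨n, hn⟩ := bd_ne hx'
      obtain ⟨k0, hk0⟩ := hc q x n
      set k := max k0 n with hk
      have hk' : ∀ z : T.Bd, z.1 k = x.1 k → (ρ q z).1 k ≠ x.1 k := by
        intro z hz
        have h1 := hk0 z (bd_eq_of_le (le_max_left _ _) hz)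
        have h2 : (ρ q z).1 n ≠ x.1 n := by rw [h1]; exact hn
        exact bd_ne_of_le (le_max_right _ _) h2
      obtain ⟨s, hs, hs1⟩ := ha.rist k (x.1 k)
      have h3 : ∃ z, a.bd s z ≠ z := by
        by_contra h
        push Not at h
        exact hs1 (eq_one_of_bd ha h)
      obtain ⟨z, hz⟩ := h3
      have hzk : z.1 k = x.1 k := by
        by_contra h
        exact hz ((mem_Rist_iff a _ s).1 hs z h)
      have h4 : a.bd s (ρ q z) = ρ q z := (mem_Rist_iff a _ s).1 hs _ (hk' z hzk)
      rw [← hcomm] at h4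
      exact hz ((ρ q).injective h4)
  · -- cyclic
    have hinj2 : Function.Injective ((chi σ hσ).comp ρ.ker.subtype) := by
      rw [injective_iff_map_eq_one]
      intro q hq
      exact Subtype.ext (hker1 q.1 q.2 hq)
    have h1 : IsCyclic ρ.ker := isCyclic_of_injective _ hinj2
    obtain ⟨z, hz⟩ := h1.exists_generator
    refine ⟨z.1, ?_⟩
    ext q
    constructor
    · intro hq
      obtain ⟨n, hn⟩ := hz ⟨q, hq⟩
      refine ⟨n, ?_⟩
      have := congrArg Subtype.val hn
      simpa using this
    · rintro ⟨n, rfl⟩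
      exact ρ.ker.zpow_mem z.2 n
  · intro q hq hq1 hfin
    rw [isOfFinOrder_iff_pow_eq_one] at hfin
    obtain ⟨n, hn, hqn⟩ := hfin
    apply hq1
    apply hker1 q hq
    have h1 : (chi σ hσ q) ^ n = 1 := by rw [← map_pow, hqn, map_one]
    have h2 : n • Multiplicative.toAdd (chi σ hσ q) = 0 := by
      rw [← toAdd_pow, h1]
      rfl
    have h3 : Multiplicative.toAdd (chi σ hσ q) = 0 := by
      rcases smul_eq_zero.mp h2 with h | h
      · omega
      · exact h
    exact Multiplicative.toAdd.injective h3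

end Pool.Agent.Helper62.WB
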