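import Pool.Agent.Helper62.WB.KE
import Pool.Agent.Helper62.WB.QF

/-!
# Project WB: the main theorem from the packets
-/

set_option autoImplicit false

namespace Pool.Agent.Helper62.WB

open scoped Classical

theorem RF_of_equiv {G H : Type} [Group G] [Group H] (e : G ≃* H) (hG : RF G) : RF H := by
  intro h hh
  obtain ⟨K, hK, hK2, hK3⟩ := hG (e.symm h) (by
    intro h1
    apply hh
    have := congrArg e h1
    simpa using this)
  refine ⟨K.comap e.symm.toMonoidHom, hK.comap _, ?_, hK3⟩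
  refine ⟨?_⟩
  have : (K.comap e.symm.toMonoidHom).index = K.index := K.index_comap_of_surjective e.symm.surjective
  rw [this]
  exact hK2.index_ne_zero

theorem IsWB_of_equiv {G H : Type} [Group G] [Group H] (e : G ≃* H) (hH : IsWB H) : IsWB G := by
  obtain ⟨T, a, ha⟩ := hH
  refine ⟨T, ⟨fun n => (a.act n).comp e.toMonoidHom, fun n g v => a.par_act n (e g) v⟩, ?_, ?_, ?_⟩
  · intro g hg
    have h1 : e g = 1 := ha.faithful (e g) hg
    exact (MulEquiv.map_eq_one_iff e).1 h1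
  · intro n v w
    obtain ⟨h, hh⟩ := ha.trans n v w
    refine ⟨e.symm h, ?_⟩
    show a.act n (e (e.symm h)) v = w
    rw [e.apply_symm_apply]
    exact hh
  · intro n v
    obtain ⟨h, hh, hh1⟩ := ha.rist n v
    refine ⟨e.symm h, fun k w hw => ?_, fun h1 => hh1 ?_⟩
    · show a.act (n + k) (e (e.symm h)) w = w
      rw [e.apply_symm_apply]
      exact hh k w hw
    · have := congrArg e h1
      simpa using this

theorem t_conj {Γ : Type} [Group Γ] (σ : Γ →* Γ) (hσ : Function.Injective σ) (g : Γ) :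
    (HNNExtension.t : Asc σ hσ) * HNNExtension.of g * HNNExtension.t⁻¹ =
      HNNExtension.of (σ g) := by
  have h := HNNExtension.equiv_eq_conj (φ := ascEquiv σ hσ) ⟨g, Subgroup.mem_top g⟩
  rw [← h]
  rfl

theorem dense_of_RF (hRB : StmtRB) {T : RTree} {Γ : Type} [Group Γ] {a : TAct T Γ}
    (ha : a.WeaklyBranch) {σ : Γ →* Γ} {hσ : Function.Injective σ} (h : RF (Asc σ hσ)) :
    a.Dense σ :=
  hRB.2 T Γ (Asc σ hσ) a ha h HNNExtension.of (HNNExtension.of_injective _) σ HNNExtension.t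
    (t_conj σ hσ)

theorem RF_of_dense (hTP : StmtTP) (hNF : StmtNF) {T : RTree} {Γ : Type} [Group Γ]
    {a : TAct T Γ} (ha : a.WeaklyBranch) (hfg : Group.FG Γ) {σ : Γ →* Γ}
    {hσ : Function.Injective σ} (hd : a.Dense σ) : RF (Asc σ hσ) := by
  refine (hNF Γ σ hσ).2 fun g hg => ?_
  have h1 : ∃ n, a.act n g ≠ 1 := by
    by_contra h
    push Not at h
    exact hg (ha.faithful g h)
  obtain ⟨n, hn⟩ := h1
  obtain ⟨C, hC1, hC2, hC3, hC4, -⟩ := hTP T Γ a hfg ha σ hσ hd n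
  exact ⟨C, hC1, hC2, fun h => hn (hC3 h), hC4⟩

theorem Cts_one (T : RTree) : Cts (1 : Equiv.Perm T.Bd) := fun x n => ⟨n, fun z hz => hz⟩

theorem Cts_mul {T : RTree} {p q : Equiv.Perm T.Bd} (hp : Cts p) (hq : Cts q) : Cts (p * q) := by
  intro x n
  obtain ⟨k, hk⟩ := hp (q x) n
  obtain ⟨l, hl⟩ := hq x k
  exact ⟨l, fun z hz => hk (q z) (hl z hz)⟩

theorem Cts_bd {T : RTree} {Γ : Type} [Group Γ] (a : TAct T Γ) (g : Γ) : Cts (a.bd g) := by
  intro x n
  refine ⟨n, fun z hz => ?_⟩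
  rw [TAct.bd_apply, TAct.bd_apply, hz]

theorem structure_of_dense (hTP : StmtTP) (hNF : StmtNF) (hCL : StmtCL) (hS3 : StmtS3)
    (hTR : StmtTR) {T : RTree} {Γ : Type} [Group Γ]
    {a : TAct T Γ} (ha : a.WeaklyBranch) (hfg : Group.FG Γ) {σ : Γ →* Γ}
    {hσ : Function.Injective σ} (hd : a.Dense σ) :
    ∃ C : Subgroup (Asc σ hσ), ∃ _ : C.Normal,
      C = Subgroup.centralizer ((HNNExtension.of : Γ →* Asc σ hσ).range : Set (Asc σ hσ)) ∧
      (∃ z, C = Subgroup.zpowers z) ∧ (∀ q ∈ C, q ≠ 1 → ¬ IsOfFinOrder q) ∧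
      IsWB (Asc σ hσ ⧸ C) := by
  have hc1 : ∀ n, ∃ m, ∀ g, a.act m g = 1 → a.act n (σ g) = 1 := by
    intro n
    obtain ⟨C, hC1, hC2, hC3, hC4, m, hm⟩ := hTP T Γ a hfg ha σ hσ hd n
    exact ⟨m, fun g hg => hC3 ((hC4 g).2 (hm hg))⟩
  have hc2 : ∀ n, ∃ m, ∀ g, a.act m (σ g) = 1 → a.act n g = 1 := by
    intro n
    obtain ⟨C, hC1, hC2, hC3, hC4, m, hm⟩ := hTP T Γ a hfg ha σ hσ hd n
    exact ⟨m, fun g hg => hC3 ((hC4 g).1 (hm hg))⟩
  obtain ⟨D, _, b, ι, τ, hb, hι, hdense, hτ, hτ1, hτ2⟩ := hCL T Γ a ha σ hd hc1 hc2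
  obtain ⟨f, hf1, hf2, hf3⟩ := hS3 T D b τ ⟨hb, hτ1, hτ2⟩
  have hbd : ∀ g, b.bd (ι g) = a.bd g := by
    intro g
    ext x
    apply Subtype.ext
    funext n
    rw [TAct.bd_apply, TAct.bd_apply, hι]
  have hfrel : ∀ g, f * a.bd g = a.bd (σ g) * f := by
    intro g
    ext x
    rw [Equiv.Perm.mul_apply, Equiv.Perm.mul_apply, ← hbd, ← hbd, hf3, hτ]
  set ρ : Asc σ hσ →* Equiv.Perm T.Bd := HNNExtension.lift a.bd f (by
    intro x
    exact hfrel x) with hρdef
  have hρof : ∀ g, ρ (HNNExtension.of g) = a.bd g := by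
    intro g
    rw [hρdef]
    exact HNNExtension.lift_of _ _ _ _
  have hρt : ρ HNNExtension.t = f := by
    rw [hρdef]
    exact HNNExtension.lift_t _ _ _
  have hcts : ∀ q, Cts (ρ q) ∧ Cts (ρ q)⁻¹ := by
    intro q
    induction q using HNNExtension.induction_on with
    | of g =>
      rw [hρof, ← map_inv]
      exact ⟨Cts_bd a g, Cts_bd a g⁻¹⟩
    | t =>
      rw [hρt]
      exact ⟨hf1, hf2⟩
    | mul x y hx hy =>
      rw [map_mul, mul_inv_rev]
      exact ⟨Cts_mul hx.1 hy.1, Cts_mul hy.2 hx.2⟩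
    | inv x hx =>
      rw [map_inv, inv_inv]
      exact ⟨hx.2, hx.1⟩
  have hnorm : ∀ q, (∀ d, ∃ d', ρ q * b.bd d * (ρ q)⁻¹ = b.bd d') ∧
      (∀ d, ∃ d', (ρ q)⁻¹ * b.bd d * ρ q = b.bd d') := by
    intro q
    induction q using HNNExtension.induction_on with
    | of g =>
      rw [hρof, ← hbd]
      refine ⟨fun d => ⟨ι g * d * (ι g)⁻¹, by simp⟩, fun d => ⟨(ι g)⁻¹ * d * ι g, by simp⟩⟩
    | t =>
      rw [hρt]
      refine ⟨fun d => ⟨τ d, ?_⟩, fun d => ⟨τ.symm d, ?_⟩⟩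
      · have h1 : f * b.bd d = b.bd (τ d) * f := by
          ext x
          exact hf3 d x
        rw [h1, mul_assoc, mul_inv_cancel, mul_one]
      · have h1 : f * b.bd (τ.symm d) = b.bd d * f := by
          ext x
          have := hf3 (τ.symm d) x
          rw [τ.apply_symm_apply] at this
          exact this
        rw [mul_assoc, ← h1, ← mul_assoc, inv_mul_cancel, one_mul]
    | mul x y hx hy =>
      refine ⟨fun d => ?_, fun d => ?_⟩
      · obtain ⟨d1, h1⟩ := hy.1 d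
        obtain ⟨d2, h2⟩ := hx.1 d1
        refine ⟨d2, ?_⟩
        rw [← h2, ← h1, map_mul, mul_inv_rev]
        simp only [mul_assoc]
      · obtain ⟨d1, h1⟩ := hx.2 d
        obtain ⟨d2, h2⟩ := hy.2 d1
        refine ⟨d2, ?_⟩
        rw [← h2, ← h1, map_mul, mul_inv_rev]
        simp only [mul_assoc]
    | inv x hx =>
      rw [map_inv, inv_inv]
      exact ⟨hx.2, hx.1⟩
  have hker := ke hNF T Γ a ha σ hσ ρ hρof (fun q => (hcts q).1)
  have hWB := hTR T Γ D (Asc σ hσ) a b HNNExtension.of ρ hfg ha hdense hρof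
    (fun q => (hcts q).1) (fun q g => by
      rw [← hbd]
      exact (hnorm q).1 (ι g))
  exact ⟨ρ.ker, inferInstance, hker.1, hker.2.1, hker.2.2, hWB⟩

theorem quotient_of_structure {Γ : Type} [Group Γ] {σ : Γ →* Γ} {hσ : Function.Injective σ}
    {G : Type} [Group G] (hFP : FP G) (N : Subgroup G) [N.Normal] (hN : N.FG)
    (e : G ⧸ N ≃* Asc σ hσ)
    (h : ∃ C : Subgroup (Asc σ hσ), ∃ _ : C.Normal, (∃ z, C = Subgroup.zpowers z) ∧
      IsWB (Asc σ hσ ⧸ C)) :
    ∃ M : Subgroup G, ∃ _ : M.Normal, N ≤ M ∧ FP (G ⧸ M) ∧ IsWB (G ⧸ M) := by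
  obtain ⟨C, hC, ⟨z, hz⟩, hWB⟩ := h
  set φ : G →* Asc σ hσ ⧸ C :=
    (QuotientGroup.mk' C).comp (e.toMonoidHom.comp (QuotientGroup.mk' N)) with hφ
  have hφs : Function.Surjective φ :=
    (QuotientGroup.mk'_surjective C).comp (e.surjective.comp (QuotientGroup.mk'_surjective N))
  have hmem : ∀ x, x ∈ φ.ker ↔ e (QuotientGroup.mk x) ∈ C := by
    intro x
    rw [MonoidHom.mem_ker]
    exact QuotientGroup.eq_one_iff _
  refine ⟨φ.ker, inferInstance, ?_, ?_, ?_⟩
  · intro x hx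
    rw [hmem]
    have h1 : (QuotientGroup.mk x : G ⧸ N) = 1 := (QuotientGroup.eq_one_iff x).2 hx
    rw [h1, map_one]
    exact C.one_mem
  · apply qf G φ.ker hFP
    obtain ⟨S, hS⟩ := hN
    obtain ⟨z', hz'⟩ := QuotientGroup.mk_surjective (e.symm z)
    refine ⟨insert z' S, ?_⟩
    apply le_antisymm
    · intro x hx
      rw [hmem, hz] at hx
      obtain ⟨m, hm⟩ := hx
      have h1 : (z' ^ m)⁻¹ * x ∈ N := by
        rw [← QuotientGroup.eq]
        apply e.injective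
        rw [QuotientGroup.mk_zpow, hz', map_zpow, e.apply_symm_apply]
        exact hm
      have h2 : N ≤ Subgroup.normalClosure ((insert z' S : Finset G) : Set G) := by
        rw [← hS, Subgroup.closure_le]
        intro s hs
        apply Subgroup.subset_normalClosure
        simp only [Finset.coe_insert, Set.mem_insert_iff]
        exact Or.inr hs
      have h3 : z' ∈ Subgroup.normalClosure ((insert z' S : Finset G) : Set G) := by
        apply Subgroup.subset_normalClosure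
        simp
      have h4 := (Subgroup.normalClosure ((insert z' S : Finset G) : Set G)).mul_mem
        (Subgroup.zpow_mem _ h3 m) (h2 h1)
      simpa using h4
    · refine Subgroup.normalClosure_le_normal ?_
      intro s hs
      simp only [Finset.coe_insert, Set.mem_insert_iff] at hs
      show s ∈ φ.ker
      rw [hmem]
      rcases hs with rfl | hs
      · rw [hz', e.apply_symm_apply, hz]
        exact Subgroup.mem_zpowers z
      · have h1 : s ∈ N := by
          rw [← hS]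
          exact Subgroup.subset_closure hs
        have h2 : (QuotientGroup.mk s : G ⧸ N) = 1 := (QuotientGroup.eq_one_iff s).2 h1
        rw [h2, map_one]
        exact C.one_mem
  · exact IsWB_of_equiv (QuotientGroup.quotientKerEquivOfSurjective φ hφs) hWB

theorem main_of (hFO : StmtFO) (hSA : StmtSA) (hRB : StmtRB) (hTP : StmtTP) (hNF : StmtNF)
    (hCL : StmtCL) (hS3 : StmtS3) (hTR : StmtTR) : StmtMain := by
  have key : ∀ (T : RTree) (Γ : Type) [Group Γ] (a : TAct T Γ), a.WeaklyBranch →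
    ∀ (σ : Γ →* Γ) (hσ : Function.Injective σ) (G : Type) [Group G], Amen G →
    ∀ (N : Subgroup G) [N.Normal], N.FG → Nonempty (G ⧸ N ≃* Asc σ hσ) →
    (Stable G → a.Dense σ ∧ (Group.FG Γ → FP G → ∃ M : Subgroup G, ∃ _ : M.Normal, N ≤ M ∧
      FP (G ⧸ M) ∧ IsWB (G ⧸ M))) := by
    intro T Γ _ a ha σ hσ G _ hA N _ hN ⟨e⟩ hS
    have h1 : RF (G ⧸ N) := hSA G (hFO G hA) hS N hN
    have h2 : a.Dense σ := dense_of_RF hRB ha (RF_of_equiv e h1)
    refine ⟨h2, fun hfg hFP => ?_⟩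
    obtain ⟨C, hC, -, hC1, -, hC2⟩ := structure_of_dense hTP hNF hCL hS3 hTR ha hfg (hσ := hσ) h2
    exact quotient_of_structure hFP N hN e ⟨C, hC, hC1, hC2⟩
  refine ⟨fun T Γ _ a ha σ hσ G _ hA N _ hN he => ⟨key T Γ a ha σ hσ G hA N hN he, fun hS => ?_⟩,
    fun T Γ _ a ha hfg σ hσ => ⟨⟨dense_of_RF hRB ha, RF_of_dense hTP hNF ha hfg⟩,
      structure_of_dense hTP hNF hCL hS3 hTR ha hfg⟩⟩
  obtain ⟨h1, h2⟩ := qf2 G hS
  obtain ⟨h3, h4⟩ := key T Γ a ha σ hσ G hA N hN he h1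
  exact ⟨h3, fun hfg => h4 hfg h2⟩

end Pool.Agent.Helper62.WB
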